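import Mathlib

/-!
# Self-dual minor-closed classes containing all independence spaces

Let `S` be an infinite set.  We answer Q1 of `MP_cb2a9f_co` in the negative: there is an
admissible system containing all independence spaces, and even closed under arbitrary direct
sums, which differs from the system of all B-matroids on every infinite `W ⊆ S`.
-/

open Set

universe u

namespace Pool.Agent.Results.MP_cb2a9f_co.LeastSumClosedSystem

variable {S : Type u}

/-- `IsPreIndepSpace W I`: the family `I` of subsets of `W` is a pre-independence space on `W`. -/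
structure IsPreIndepSpace (W : Set S) (I : Set (Set S)) : Prop where
  /-- `I` is a family of subsets of `W` -/
  subset_ground : ∀ X ∈ I, X ⊆ W
  empty_mem : ∅ ∈ I
  mem_of_subset : ∀ X ∈ I, ∀ Y, Y ⊆ X → Y ∈ I
  augment : ∀ I₁ ∈ I, ∀ I₂ ∈ I, I₁.Finite → I₂.Finite → I₁.ncard < I₂.ncard →
    ∃ e ∈ I₂ \ I₁, I₁ ∪ {e} ∈ I

/-- `IsIndepSpace W I`: the family `I` is an independence space on `W`, that is, a
pre-independence space that contains `Y ⊆ W` whenever it contains all finite subsets of `Y`. -/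
structure IsIndepSpace (W : Set S) (I : Set (Set S)) : Prop extends IsPreIndepSpace W I where
  finitary : ∀ Y, Y ⊆ W → (∀ F, F ⊆ Y → F.Finite → F ∈ I) → Y ∈ I

/-- `MaxIn I X B`: `B` is a maximal member of `{Y ∈ I : Y ⊆ X}`. -/
def MaxIn (I : Set (Set S)) (X B : Set S) : Prop :=
  Maximal (fun Y => Y ∈ I ∧ Y ⊆ X) B

/-- `IsBMatroid W I`: the family `I` of subsets of `W` is a B-matroid on `W`. -/
structure IsBMatroid (W : Set S) (I : Set (Set S)) : Prop where
  /-- `I` is a family of subsets of `W` -/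
  subset_ground : ∀ X ∈ I, X ⊆ W
  empty_mem : ∅ ∈ I
  mem_of_subset : ∀ X ∈ I, ∀ Y, Y ⊆ X → Y ∈ I
  IB1 : ∀ X, X ⊆ W → ∀ T ∈ I, T ⊆ X → ∃ B, MaxIn I X B ∧ T ⊆ B
  IB2 : ∀ X, X ⊆ W → ∀ B₁ B₂, MaxIn I X B₁ → MaxIn I X B₂ → ∀ x ∈ B₁ \ B₂,
    ∃ y ∈ B₂ \ B₁, MaxIn I X ((B₁ \ {x}) ∪ {y})

/-- `IsBasis I B`: `B` is a basis of `I`, that is, a maximal member of `I`. -/
def IsBasis (I : Set (Set S)) (B : Set S) : Prop :=
  Maximal (fun Y => Y ∈ I) B

/-- The restriction `I|Z`. -/
def restr (I : Set (Set S)) (Z : Set S) : Set (Set S) :=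
  {Y | Y ⊆ Z ∧ Y ∈ I}

/-- The contraction `I.Z` formed with the basis `B` of `I|(W \ Z)`. -/
def contr (I : Set (Set S)) (Z B : Set S) : Set (Set S) :=
  {Y | Y ⊆ Z ∧ Y ∪ B ∈ I}

/-- The dual `I*` of a family `I` of subsets of `W`. -/
def dual (W : Set S) (I : Set (Set S)) : Set (Set S) :=
  {X | X ⊆ W ∧ ∃ B, IsBasis I B ∧ B ⊆ W \ X}

/-- `IsAdmissible D`: the family `D = (D W)` indexed by the subsets `W` of `S` is an admissible
system. -/
structure IsAdmissible (D : Set S → Set (Set (Set S))) : Prop where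
  /-- each `D W` is a set of pre-independence spaces on `W` -/
  isPreIndepSpace : ∀ W, ∀ I ∈ D W, IsPreIndepSpace W I
  /-- `I|Z ∈ D Z` -/
  restr_mem : ∀ Z W, Z ⊆ W → ∀ I ∈ D W, restr I Z ∈ D Z
  /-- `I|(W \ Z)` has a basis -/
  contr_exists : ∀ Z W, Z ⊆ W → ∀ I ∈ D W, ∃ B, IsBasis (restr I (W \ Z)) B
  /-- `I.Z` does not depend on the choice of the basis of `I|(W \ Z)` -/
  contr_unique : ∀ Z W, Z ⊆ W → ∀ I ∈ D W, ∀ B B', IsBasis (restr I (W \ Z)) B →
    IsBasis (restr I (W \ Z)) B' → contr I Z B = contr I Z B'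
  /-- `I.Z ∈ D Z` -/
  contr_mem : ∀ Z W, Z ⊆ W → ∀ I ∈ D W, ∀ B, IsBasis (restr I (W \ Z)) B → contr I Z B ∈ D Z
  /-- `I* ∈ D W` -/
  dual_mem : ∀ W, ∀ I ∈ D W, dual W I ∈ D W
  /-- `(I*)* = I` -/
  dual_dual : ∀ W, ∀ I ∈ D W, dual W (dual W I) = I

/-- `D` contains all independence spaces. -/
def ContainsIndepSpaces (D : Set S → Set (Set (Set S))) : Prop :=
  ∀ W I, IsIndepSpace W I → I ∈ D W

/-- The direct sum of families `I i` of subsets of the sets `W i`. -/
def directSum {ι : Type u} (W : ι → Set S) (I : ι → Set (Set S)) : Set (Set S) :=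
  {X | X ⊆ ⋃ i, W i ∧ ∀ i, X ∩ W i ∈ I i}

/-- `D` is closed under direct sums of arbitrary families of members of `D` that live on pairwise
disjoint subsets of `S`. -/
def ClosedUnderDirectSums (D : Set S → Set (Set (Set S))) : Prop :=
  ∀ (ι : Type u) (W : ι → Set S) (I : ι → Set (Set S)),
    (∀ i j, i ≠ j → Disjoint (W i) (W j)) → (∀ i, I i ∈ D (W i)) →
      directSum W I ∈ D (⋃ i, W i)

/-! ### Translation to Mathlib matroids -/

/-- The family of independent sets of a matroid. -/
def fam (M : Matroid S) : Set (Set S) := {X | M.Indep X}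

theorem mem_fam {M : Matroid S} {X : Set S} : X ∈ fam M ↔ M.Indep X := Iff.rfl

theorem maxIn_fam_iff {M : Matroid S} {X B : Set S} (hX : X ⊆ M.E) :
    MaxIn (fam M) X B ↔ M.IsBasis B X := by
  unfold MaxIn Matroid.IsBasis
  simp only [mem_fam, hX, and_true]

theorem isBasis_fam_iff {M : Matroid S} {B : Set S} :
    IsBasis (fam M) B ↔ M.IsBase B := by
  rw [Matroid.isBase_iff_maximal_indep]
  rfl

theorem isBMatroid_fam (M : Matroid S) : IsBMatroid M.E (fam M) where
  subset_ground X hX := Matroid.Indep.subset_ground hX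
  empty_mem := M.empty_indep
  mem_of_subset X hX Y hY := Matroid.Indep.subset hX hY
  IB1 X hX T hT hTX := by
    obtain ⟨B, hB, hTB⟩ := Matroid.Indep.subset_isBasis_of_subset (show M.Indep T from hT) hTX hX
    exact ⟨B, (maxIn_fam_iff hX).2 hB, hTB⟩
  IB2 X hX B₁ B₂ h₁ h₂ x hx := by
    rw [maxIn_fam_iff hX] at h₁ h₂
    obtain ⟨y, hy, hB⟩ := (h₁.isBase_restrict).exchange (h₂.isBase_restrict) hx
    refine ⟨y, hy, ?_⟩
    rw [maxIn_fam_iff hX, union_singleton]
    exact (Matroid.isBase_restrict_iff hX).1 hB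

theorem IsBMatroid.exists_matroid {W : Set S} {I : Set (Set S)} (h : IsBMatroid W I) :
    ∃ M : Matroid S, M.E = W ∧ fam M = I := by
  have hmax : ∀ B, Maximal (fun X => X ∈ I) B ↔ MaxIn I W B := by
    intro B
    unfold MaxIn
    constructor
    · intro hB
      refine ⟨⟨hB.prop, h.subset_ground B hB.prop⟩, fun Y hY hBY => hB.le_of_ge hY.1 hBY⟩
    · intro hB
      refine ⟨hB.prop.1, fun Y hY hBY => hB.le_of_ge ⟨hY, h.subset_ground Y hY⟩ hBY⟩
  let IM : IndepMatroid S :=
    { E := W
      Indep := fun X => X ∈ I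
      indep_empty := h.empty_mem
      indep_subset := fun X Y hY hXY => h.mem_of_subset Y hY X hXY
      indep_aug := by
        intro J B hJ hJmax hB
        obtain ⟨B', hB', hJB'⟩ := h.IB1 W Subset.rfl J hJ (h.subset_ground J hJ)
        have hne : ∃ x ∈ B', x ∉ J := by
          by_contra! hcon
          have : J = B' := hJB'.antisymm hcon
          exact hJmax (this ▸ (hmax B').2 hB')
        obtain ⟨x, hxB', hxJ⟩ := hne
        by_cases hxB : x ∈ B
        · exact ⟨x, ⟨hxB, hxJ⟩, h.mem_of_subset B' hB'.prop.1 _ (insert_subset hxB' hJB')⟩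
        · obtain ⟨y, hy, hmy⟩ := h.IB2 W Subset.rfl B' B hB' ((hmax B).1 hB) x ⟨hxB', hxB⟩
          refine ⟨y, ⟨hy.1, fun hyJ => hy.2 (hJB' hyJ)⟩,
            h.mem_of_subset _ hmy.prop.1 _ ?_⟩
          rintro z (rfl | hz)
          · exact Or.inr rfl
          · exact Or.inl ⟨hJB' hz, fun hzx => hxJ (by rw [mem_singleton_iff] at hzx; exact hzx ▸ hz)⟩
      indep_maximal := by
        intro X hX J hJ hJX
        obtain ⟨B, hB, hJB⟩ := h.IB1 X hX J hJ hJX
        exact ⟨B, hJB, hB⟩
      subset_ground := h.subset_ground }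
  exact ⟨IM.matroid, rfl, rfl⟩

theorem isPreIndepSpace_fam (M : Matroid S) : IsPreIndepSpace M.E (fam M) where
  subset_ground X hX := Matroid.Indep.subset_ground hX
  empty_mem := M.empty_indep
  mem_of_subset X hX Y hY := Matroid.Indep.subset hX hY
  augment I₁ h₁ I₂ h₂ hf₁ hf₂ hlt := by
    have hlt' : I₁.encard < I₂.encard := by
      rw [← hf₁.cast_ncard_eq, ← hf₂.cast_ncard_eq]
      exact_mod_cast hlt
    obtain ⟨e, he, hi⟩ := Matroid.Indep.augment (show M.Indep I₁ from h₁) h₂ hlt'
    exact ⟨e, he, by rw [union_singleton]; exact hi⟩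

theorem isIndepSpace_fam (M : Matroid S) [M.Finitary] : IsIndepSpace M.E (fam M) where
  toIsPreIndepSpace := isPreIndepSpace_fam M
  finitary Y _ hF := Matroid.indep_of_forall_finite_subset_indep Y hF

theorem IsIndepSpace.exists_matroid {W : Set S} {I : Set (Set S)} (h : IsIndepSpace W I) :
    ∃ M : Matroid S, M.Finitary ∧ M.E = W ∧ fam M = I := by
  let IM : IndepMatroid S := IndepMatroid.ofFinitaryCardAugment (E := W)
    (Indep := fun X => X ∈ I) h.empty_mem (fun X Y hY hXY => h.mem_of_subset Y hY X hXY)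
    (by
      intro J K hJ hJf hK hKf hlt
      obtain ⟨e, he, hi⟩ := h.augment J hJ K hK hJf hKf hlt
      exact ⟨e, he.1, he.2, by rwa [union_singleton] at hi⟩)
    (by
      intro J hJ
      refine h.finitary J (fun x hx => ?_) hJ
      exact h.subset_ground {x} (hJ {x} (by simpa) (finite_singleton x)) rfl)
    h.subset_ground
  exact ⟨IM.matroid, inferInstance, rfl, rfl⟩

theorem fam_injective {M N : Matroid S} (hE : M.E = N.E) (h : fam M = fam N) : M = N := by
  refine Matroid.ext_indep hE fun I _ => ?_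
  rw [← mem_fam, h, mem_fam]

theorem dual_fam (M : Matroid S) : dual M.E (fam M) = fam M✶ := by
  ext X
  rw [mem_fam, Matroid.dual_indep_iff_exists']
  unfold dual
  constructor
  · rintro ⟨hX, B, hB, hBX⟩
    refine ⟨hX, B, isBasis_fam_iff.1 hB, ?_⟩
    exact (disjoint_sdiff_left.mono_left hBX).symm
  · rintro ⟨hX, B, hB, hBX⟩
    exact ⟨hX, B, isBasis_fam_iff.2 hB, subset_sdiff.2 ⟨hB.subset_ground, hBX.symm⟩⟩

theorem restr_fam (M : Matroid S) (Z : Set S) : restr (fam M) Z = fam (M.restrict Z) := by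
  ext X
  rw [mem_fam, Matroid.restrict_indep_iff]
  exact and_comm

theorem contr_fam (M : Matroid S) {Z B : Set S} (hZ : Z ⊆ M.E)
    (hB : IsBasis (restr (fam M) (M.E \ Z)) B) :
    contr (fam M) Z B = fam (M.contract (M.E \ Z)) := by
  rw [restr_fam, isBasis_fam_iff, Matroid.isBase_restrict_iff sdiff_subset] at hB
  ext X
  rw [mem_fam, hB.contract_indep_iff]
  unfold contr
  constructor
  · rintro ⟨hXZ, hi⟩
    exact ⟨hi, disjoint_sdiff_left.mono_right hXZ⟩
  · rintro ⟨hi, hdj⟩
    refine ⟨fun x hx => ?_, hi⟩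
    by_contra hxZ
    exact hdj.ne_of_mem (a := x) (b := x)
      ⟨(Matroid.Indep.subset_ground hi) (Or.inl hx), hxZ⟩ hx rfl

/-- Circuits of direct sums. -/
theorem isCircuit_disjointSigma {ι : Type u} {M : ι → Matroid S}
    (h : Pairwise (Function.onFun Disjoint fun i => (M i).E)) {C : Set S}
    (hC : (Matroid.disjointSigma M h).IsCircuit C) : ∃ i, (M i).IsCircuit C := by
  have hdep := hC.dep
  have hCE : C ⊆ ⋃ i, (M i).E := by
    have := hC.subset_ground
    rwa [Matroid.disjointSigma_ground_eq] at this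
  have hni := hC.not_indep
  rw [Matroid.disjointSigma_indep_iff] at hni
  have : ∃ i, ¬ (M i).Indep (C ∩ (M i).E) := by
    by_contra! hcon
    exact hni ⟨hcon, hCE⟩
  obtain ⟨i, hi⟩ := this
  have hdepi : (M i).Dep (C ∩ (M i).E) := ⟨hi, inter_subset_right⟩
  obtain ⟨K, hKC, hK⟩ := hdepi.exists_isCircuit_subset
  refine ⟨i, ?_⟩
  have hKeq : K = C := by
    refine hC.eq_of_not_indep_subset (fun hKi => ?_) (hKC.trans inter_subset_left)
    rw [Matroid.disjointSigma_indep_iff] at hKi
    have := hKi.1 i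
    rw [inter_eq_self_of_subset_left hK.subset_ground] at this
    exact hK.not_indep this
  exact hKeq ▸ hK

theorem dual_disjointSigma {ι : Type u} {M : ι → Matroid S}
    (h : Pairwise (Function.onFun Disjoint fun i => (M i).E))
    (h' : Pairwise (Function.onFun Disjoint fun i => ((M i)✶).E)) :
    (Matroid.disjointSigma M h)✶ = Matroid.disjointSigma (fun i => (M i)✶) h' := by
  have hE : (Matroid.disjointSigma M h)✶.E = (Matroid.disjointSigma (fun i => (M i)✶) h').E := by
    rw [Matroid.dual_ground, Matroid.disjointSigma_ground_eq, Matroid.disjointSigma_ground_eq]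
    rfl
  refine Matroid.ext_isBase hE fun B hB => ?_
  have hB' : B ⊆ ⋃ i, (M i).E := by simpa using hB
  have hB'' : B ⊆ ⋃ i, ((M i)✶).E := by simpa using hB
  rw [Matroid.dual_isBase_iff (by simpa using hB'), Matroid.disjointSigma_isBase_iff,
    Matroid.disjointSigma_isBase_iff]
  rw [and_iff_left hB'', and_iff_left]
  · refine forall_congr' fun i => ?_
    rw [Matroid.dual_isBase_iff (M := M i) (B := B ∩ (M i)✶.E) inter_subset_right]
    have : ((Matroid.disjointSigma M h).E \ B) ∩ (M i).E = (M i).E \ (B ∩ (M i)✶.E) := by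
      ext x
      simp only [Matroid.disjointSigma_ground_eq, mem_inter_iff, mem_sdiff, mem_iUnion,
        Matroid.dual_ground]
      constructor
      · rintro ⟨⟨_, h2⟩, h3⟩
        exact ⟨h3, fun h4 => h2 h4.1⟩
      · rintro ⟨h1, h2⟩
        exact ⟨⟨⟨i, h1⟩, fun h3 => h2 ⟨h3, h1⟩⟩, h1⟩
    rw [this]
  · refine sdiff_subset.trans ?_
    simp

/-! ### The system -/

/-- The ground set splits as `P` and its complement such that the circuits meeting `P` are finite
and contained in `P`, and the cocircuits meeting the complement of `P` are finite and contained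
in the complement. -/
def Good (M : Matroid S) : Prop :=
  ∃ P : Set S, (∀ C, M.IsCircuit C → (C ∩ P).Nonempty → C ⊆ P ∧ C.Finite) ∧
    (∀ K, M✶.IsCircuit K → (K ∩ Pᶜ).Nonempty → K ⊆ Pᶜ ∧ K.Finite)

theorem Good.dual {M : Matroid S} (h : Good M) : Good M✶ := by
  obtain ⟨P, h1, h2⟩ := h
  refine ⟨Pᶜ, h2, ?_⟩
  rw [Matroid.dual_dual, compl_compl]
  exact h1

theorem Good.restrict {M : Matroid S} (h : Good M) {Z : Set S} (hZ : Z ⊆ M.E) :
    Good (M.restrict Z) := by
  obtain ⟨P, h1, h2⟩ := h
  refine ⟨P, fun C hC => ?_, fun K hK hKP => ?_⟩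
  · rw [Matroid.restrict_isCircuit_iff hZ] at hC
    exact h1 C hC.1
  · have hdel : M.restrict Z = M.delete (M.E \ Z) := by
      rw [Matroid.delete_eq_restrict, sdiff_sdiff_cancel_left hZ]
    rw [hdel, Matroid.dual_delete] at hK
    obtain ⟨K', hK', hKK', -⟩ := hK.exists_subset_isCircuit_of_contract
    have := h2 K' hK' (hKP.mono (inter_subset_inter_left _ hKK'))
    exact ⟨hKK'.trans this.1, this.2.subset hKK'⟩

theorem Good.contract {M : Matroid S} (h : Good M) (C : Set S) : Good (M.contract C) := by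
  have : (M✶.delete C)✶ = M.contract C := rfl
  rw [← this, Matroid.delete_eq_restrict]
  exact (h.dual.restrict sdiff_subset).dual

theorem good_of_finitary (M : Matroid S) [M.Finitary] : Good M := by
  refine ⟨univ, fun C hC _ => ⟨subset_univ _, hC.finite⟩, fun K _ hK => ?_⟩
  simp at hK

theorem Good.disjointSigma {ι : Type u} {M : ι → Matroid S}
    (h : Pairwise (Function.onFun Disjoint fun i => (M i).E)) (hM : ∀ i, Good (M i)) :
    Good (Matroid.disjointSigma M h) := by
  choose P hP using hM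
  refine ⟨⋃ i, P i ∩ (M i).E, fun C hC hCP => ?_, fun K hK hKP => ?_⟩
  · obtain ⟨i, hi⟩ := isCircuit_disjointSigma h hC
    obtain ⟨x, hxC, hxP⟩ := hCP
    obtain ⟨j, hj⟩ := mem_iUnion.1 hxP
    have hij : i = j := by
      by_contra hne
      exact (h hne).ne_of_mem (hi.subset_ground hxC) hj.2 rfl
    subst hij
    have := (hP i).1 C hi ⟨x, hxC, hj.1⟩
    exact ⟨fun y hy => mem_iUnion.2 ⟨i, this.1 hy, hi.subset_ground hy⟩, this.2⟩
  · rw [dual_disjointSigma h h] at hK
    obtain ⟨i, hi⟩ := isCircuit_disjointSigma _ hK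
    obtain ⟨x, hxK, hxP⟩ := hKP
    have hxE : x ∈ (M i).E := hi.subset_ground hxK
    have hxPi : x ∉ P i := fun hx => hxP (mem_iUnion.2 ⟨i, hx, hxE⟩)
    have := (hP i).2 K hi ⟨x, hxK, hxPi⟩
    refine ⟨fun y hy hyP => ?_, this.2⟩
    obtain ⟨j, hj⟩ := mem_iUnion.1 hyP
    have hij : i = j := by
      by_contra hne
      exact (h hne).ne_of_mem (hi.subset_ground hy) hj.2 rfl
    subst hij
    exact this.1 hy hj.1

/-- The least sum-closed admissible system containing all independence spaces. -/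
def sys (W : Set S) : Set (Set (Set S)) :=
  {I | ∃ M : Matroid S, Good M ∧ M.E = W ∧ fam M = I}

theorem sys_isAdmissible : IsAdmissible (sys (S := S)) where
  isPreIndepSpace := by
    rintro W I ⟨M, -, rfl, rfl⟩
    exact isPreIndepSpace_fam M
  restr_mem := by
    rintro Z W hZ I ⟨M, hM, rfl, rfl⟩
    exact ⟨M.restrict Z, hM.restrict hZ, rfl, (restr_fam M Z).symm⟩
  contr_exists := by
    rintro Z W - I ⟨M, hM, rfl, rfl⟩
    obtain ⟨B, hB⟩ := (M.restrict (M.E \ Z)).exists_isBase
    exact ⟨B, by rw [restr_fam, isBasis_fam_iff]; exact hB⟩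
  contr_unique := by
    rintro Z W hZ I ⟨M, hM, rfl, rfl⟩ B B' hB hB'
    rw [contr_fam M hZ hB, contr_fam M hZ hB']
  contr_mem := by
    rintro Z W hZ I ⟨M, hM, rfl, rfl⟩ B hB
    refine ⟨M.contract (M.E \ Z), hM.contract _, ?_, (contr_fam M hZ hB).symm⟩
    rw [Matroid.contract_ground, sdiff_sdiff_cancel_left hZ]
  dual_mem := by
    rintro W I ⟨M, hM, rfl, rfl⟩
    exact ⟨M✶, hM.dual, rfl, (dual_fam M).symm⟩
  dual_dual := by
    rintro W I ⟨M, hM, rfl, rfl⟩
    rw [dual_fam, ← Matroid.dual_ground, dual_fam, Matroid.dual_dual]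

theorem sys_containsIndepSpaces : ContainsIndepSpaces (sys (S := S)) := by
  intro W I hI
  obtain ⟨M, hfin, hE, hI⟩ := hI.exists_matroid
  exact ⟨M, good_of_finitary M, hE, hI⟩

theorem directSum_fam {ι : Type u} {M : ι → Matroid S}
    (h : Pairwise (Function.onFun Disjoint fun i => (M i).E)) :
    directSum (fun i => (M i).E) (fun i => fam (M i)) = fam (Matroid.disjointSigma M h) := by
  ext X
  rw [mem_fam, Matroid.disjointSigma_indep_iff]
  exact and_comm

theorem sys_closedUnderDirectSums : ClosedUnderDirectSums (sys (S := S)) := by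
  intro ι W I hdj hI
  choose M hM hE hfam using hI
  obtain rfl : (fun i => (M i).E) = W := funext hE
  obtain rfl : (fun i => fam (M i)) = I := funext hfam
  have h : Pairwise (Function.onFun Disjoint fun i => (M i).E) := fun i j hij => hdj i j hij
  refine ⟨Matroid.disjointSigma M h, Good.disjointSigma h hM, ?_, (directSum_fam h).symm⟩
  rw [Matroid.disjointSigma_ground_eq]

theorem sys_isBMatroid {W : Set S} {I : Set (Set S)} (hI : I ∈ sys W) : IsBMatroid W I := by
  obtain ⟨M, -, rfl, rfl⟩ := hI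
  exact isBMatroid_fam M

/-- Minimality. -/
theorem sys_least {D : Set S → Set (Set (Set S))} (hD : IsAdmissible D)
    (hind : ContainsIndepSpaces D) (hsum : ClosedUnderDirectSums D) (W : Set S) :
    sys W ⊆ D W := by
  rintro I ⟨M, ⟨P, h1, h2⟩, rfl, rfl⟩
  -- the finitary part
  set A : Matroid S := M.restrict (M.E ∩ P) with hA
  set B : Matroid S := M.restrict (M.E \ P) with hB
  have hAfin : A.Finitary := by
    rw [Matroid.finitary_iff_forall_isCircuit_finite]
    intro C hC
    rw [hA, Matroid.restrict_isCircuit_iff inter_subset_left] at hC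
    obtain ⟨x, hx⟩ := hC.1.nonempty
    exact (h1 C hC.1 ⟨x, hx, (hC.2 hx).2⟩).2
  have hBfin : B✶.Finitary := by
    rw [Matroid.finitary_iff_forall_isCircuit_finite]
    intro K hK
    have hdel : B = M.delete (M.E ∩ P) := by
      rw [hB, Matroid.delete_eq_restrict, sdiff_self_inter]
    rw [hdel, Matroid.dual_delete] at hK
    obtain ⟨K', hK', hKK', hK'P⟩ := hK.exists_subset_isCircuit_of_contract
    obtain ⟨x, hx⟩ := hK.nonempty
    have hxE := hK.subset_ground hx
    rw [Matroid.contract_ground, Matroid.dual_ground, sdiff_self_inter] at hxE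
    exact (h2 K' hK' ⟨x, hKK' hx, hxE.2⟩).2.subset hKK'
  have hAD : fam A ∈ D A.E := hind _ _ (isIndepSpace_fam A)
  have hBD : fam B ∈ D B.E := by
    have h3 : fam B✶ ∈ D B✶.E := hind _ _ (isIndepSpace_fam B✶)
    have h4 := hD.dual_mem _ _ h3
    rw [dual_fam, Matroid.dual_dual] at h4
    exact h4
  -- the sum of the two parts
  let N : ULift.{u} Bool → Matroid S := fun b => cond b.down A B
  have hdj : ∀ i j, i ≠ j → Disjoint (N i).E (N j).E := by
    have hAB : Disjoint A.E B.E := by
      simp only [hA, hB, Matroid.restrict_ground_eq]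
      exact disjoint_sdiff_right.mono_left inter_subset_right
    rintro ⟨i⟩ ⟨j⟩ hij
    cases i <;> cases j
    · exact absurd rfl hij
    · exact hAB.symm
    · exact hAB
    · exact absurd rfl hij
  have hN : ∀ i, fam (N i) ∈ D (N i).E := by
    rintro ⟨i⟩
    cases i
    · exact hBD
    · exact hAD
  have hsumD := hsum (ULift.{u} Bool) (fun i => (N i).E) (fun i => fam (N i)) hdj hN
  have hE : (⋃ i, (N i).E) = M.E := by
    ext x
    simp only [mem_iUnion]
    constructor
    · rintro ⟨⟨i⟩, hi⟩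
      cases i
      · exact hi.1
      · exact hi.1
    · intro hx
      by_cases hxP : x ∈ P
      · exact ⟨⟨true⟩, hx, hxP⟩
      · exact ⟨⟨false⟩, hx, hxP⟩
  have hfam : directSum (fun i => (N i).E) (fun i => fam (N i)) = fam M := by
    ext X
    constructor
    · rintro ⟨hXE, hX⟩
      rw [hE] at hXE
      rw [mem_fam, Matroid.indep_iff_forall_subset_not_isCircuit hXE]
      intro C hCX hC
      by_cases hCP : (C ∩ P).Nonempty
      · have hCsub := (h1 C hC hCP).1
        have := hX ⟨true⟩
        have hi : M.Indep (X ∩ (M.E ∩ P)) := (Matroid.restrict_indep_iff.1 this).1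
        exact hC.not_indep (hi.subset (subset_inter hCX (subset_inter hC.subset_ground hCsub)))
      · have := hX ⟨false⟩
        have hi : M.Indep (X ∩ (M.E \ P)) := (Matroid.restrict_indep_iff.1 this).1
        refine hC.not_indep (hi.subset (subset_inter hCX (subset_sdiff.2 ⟨hC.subset_ground, ?_⟩)))
        exact not_nonempty_iff_eq_empty.1 hCP |> disjoint_iff_inter_eq_empty.2
    · intro hX
      refine ⟨by rw [hE]; exact Matroid.Indep.subset_ground hX, ?_⟩
      rintro ⟨i⟩
      cases i
      · exact Matroid.restrict_indep_iff.2 ⟨Matroid.Indep.subset hX inter_subset_left,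
          inter_subset_right⟩
      · exact Matroid.restrict_indep_iff.2 ⟨Matroid.Indep.subset hX inter_subset_left,
          inter_subset_right⟩
  rw [hE, hfam] at hsumD
  exact hsumD

/-! ### A B-matroid outside the system -/

/-- For a nonempty set `E`, the matroid on `E` whose only circuit is `E` (the dual of the uniform
matroid of rank one). -/
theorem exists_circuitOn {E : Set S} (hE : E.Nonempty) :
    ∃ N : Matroid S, N.E = E ∧ ∀ X, N.Indep X ↔ X ⊆ E ∧ ∃ e ∈ E, e ∉ X := by
  obtain ⟨b, hb⟩ := hE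
  set U : Matroid S := (Matroid.freeOn {b}).comapOn E (fun _ => b) with hU
  have hUi : ∀ X, U.Indep X ↔ X ⊆ E ∧ X.Subsingleton := by
    intro X
    rw [hU, Matroid.comapOn_indep_iff, Matroid.freeOn_indep_iff]
    constructor
    · rintro ⟨-, h2, h3⟩
      exact ⟨h3, fun x hx y hy => h2 hx hy rfl⟩
    · rintro ⟨h1, h2⟩
      refine ⟨by rintro _ ⟨_, _, rfl⟩; rfl, fun x hx y hy _ => h2 hx hy, h1⟩
  have hUb : ∀ e ∈ E, U.IsBase {e} := by
    intro e he
    rw [Matroid.isBase_iff_maximal_indep]
    refine ⟨(hUi _).2 ⟨singleton_subset_iff.2 he, subsingleton_singleton⟩, fun Y hY heY y hy => ?_⟩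
    exact ((hUi Y).1 hY).2 hy (heY rfl)
  refine ⟨U✶, rfl, fun X => ?_⟩
  rw [Matroid.dual_indep_iff_exists']
  constructor
  · rintro ⟨hX, B, hB, hXB⟩
    refine ⟨hX, ?_⟩
    have hBne : B.Nonempty := by
      rw [nonempty_iff_ne_empty]
      rintro rfl
      have : (∅ : Set S) = {b} := hB.eq_of_subset_isBase (hUb b hb) (empty_subset _)
      exact (singleton_ne_empty b) this.symm
    obtain ⟨e, he⟩ := hBne
    exact ⟨e, hB.subset_ground he, fun heX => hXB.ne_of_mem heX he rfl⟩
  · rintro ⟨hX, e, he, heX⟩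
    exact ⟨hX, {e}, hUb e he, disjoint_singleton_right.2 heX⟩

/-- The B-matroid on `A ∪ B` obtained from a circuit `A ∪ {b}` by replacing `b` with the parallel
class `B`.  It has an infinite circuit and an infinite cocircuit that meet. -/
theorem exists_not_good {W : Set S} (hW : W.Infinite) : ∃ M : Matroid S, M.E = W ∧ ¬ Good M := by
  classical
  obtain ⟨A, B, hAB, hdj, hcard⟩ := hW.exists_union_disjoint_cardinal_eq_of_infinite
  have hAinf : A.Infinite := by
    intro hA
    have hB : B.Finite := by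
      rw [← Cardinal.lt_aleph0_iff_set_finite] at hA ⊢
      rwa [← hcard]
    exact hW (hAB ▸ hA.union hB)
  have hBinf : B.Infinite := by
    intro hB
    have hA : A.Finite := by
      rw [← Cardinal.lt_aleph0_iff_set_finite] at hB ⊢
      rwa [hcard]
    exact hAinf hA
  obtain ⟨a, ha⟩ := hAinf.nonempty
  obtain ⟨b, hb⟩ := hBinf.nonempty
  obtain ⟨N, hNE, hN⟩ := exists_circuitOn (S := S) (E := insert b A) ⟨b, mem_insert _ _⟩
  set f : S → S := fun x => if x ∈ B then b else x with hf
  have hfB : ∀ x ∈ B, f x = b := fun x hx => by simp [hf, hx]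
  have hfA : ∀ x ∈ A, f x = x := fun x hx => by
    have : x ∉ B := fun hxB => hdj.ne_of_mem hx hxB rfl
    simp [hf, this]
  have hbA : b ∉ A := fun h => hdj.ne_of_mem h hb rfl
  have haB : a ∉ B := fun h => hdj.ne_of_mem ha h rfl
  set M : Matroid S := N.comapOn W f with hM
  have hMi : ∀ X, M.Indep X ↔ (∃ e ∈ insert b A, e ∉ f '' X) ∧ InjOn f X ∧ X ⊆ W := by
    intro X
    rw [hM, Matroid.comapOn_indep_iff, hN]
    constructor
    · rintro ⟨⟨-, h2⟩, h3⟩
      exact ⟨h2, h3⟩
    · rintro ⟨h2, h3, h4⟩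
      refine ⟨⟨?_, h2⟩, h3, h4⟩
      rintro _ ⟨x, hx, rfl⟩
      rw [← hAB] at h4
      rcases h4 hx with h5 | h5
      · rw [hfA x h5]; exact mem_insert_of_mem _ h5
      · rw [hfB x h5]; exact mem_insert _ _
  -- images
  have himA : ∀ X, X ⊆ A → f '' X = X := by
    intro X hX
    ext y
    constructor
    · rintro ⟨x, hx, rfl⟩
      rw [hfA x (hX hx)]; exact hx
    · intro hy
      exact ⟨y, hy, hfA y (hX hy)⟩
  have hinjA : ∀ X, X ⊆ A → InjOn f X := by
    intro X hX x hx y hy hxy
    rwa [hfA x (hX hx), hfA y (hX hy)] at hxy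
  have hinjAb : ∀ X, X ⊆ A → ∀ e ∈ B, InjOn f (insert e X) := by
    intro X hX e he x hx y hy hxy
    rcases hx with rfl | hx <;> rcases hy with rfl | hy
    · rfl
    · rw [hfB x he, hfA y (hX hy)] at hxy
      exact absurd (hxy ▸ hX hy) hbA
    · rw [hfB y he, hfA x (hX hx)] at hxy
      exact absurd (hxy ▸ hX hx) hbA
    · rwa [hfA x (hX hx), hfA y (hX hy)] at hxy
  have himAb : ∀ X, X ⊆ A → ∀ e ∈ B, f '' (insert e X) = insert b X := by
    intro X hX e he
    rw [image_insert_eq, hfB e he, himA X hX]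
  have hAW : A ⊆ W := hAB ▸ subset_union_left
  have hBW : B ⊆ W := hAB ▸ subset_union_right
  -- the base `A`
  have hbaseA : M.IsBase A := by
    rw [Matroid.isBase_iff_maximal_indep]
    refine ⟨(hMi A).2 ⟨⟨b, mem_insert _ _, by rwa [himA A Subset.rfl]⟩, hinjA A Subset.rfl, hAW⟩,
      fun Y hY hAY y hy => ?_⟩
    by_contra hyA
    obtain ⟨⟨e, he, heY⟩, -, hYW⟩ := (hMi Y).1 hY
    have hyB : y ∈ B := by
      have := hYW hy
      rw [← hAB] at this
      exact this.resolve_left hyA
    rcases he with rfl | he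
    · exact heY ⟨y, hy, hfB y hyB⟩
    · exact heY ⟨e, hAY he, hfA e he⟩
  -- the bases `A - a + e`
  have hbaseAe : ∀ e ∈ B, M.IsBase (insert e (A \ {a})) := by
    intro e he
    rw [Matroid.isBase_iff_maximal_indep]
    refine ⟨(hMi _).2 ⟨⟨a, mem_insert_of_mem _ ha, ?_⟩, hinjAb _ sdiff_subset e he,
      insert_subset (hBW he) (sdiff_subset.trans hAW)⟩, fun Y hY hAY y hy => ?_⟩
    · rw [himAb _ sdiff_subset e he]
      rintro (h | h)
      · exact hbA (h ▸ ha)
      · exact h.2 rfl
    · by_contra hyA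
      obtain ⟨⟨c, hc, hcY⟩, hinj, hYW⟩ := (hMi Y).1 hY
      have heY : e ∈ Y := hAY (mem_insert _ _)
      have hye : y ≠ e := fun h => hyA (h ▸ mem_insert _ _)
      have := hYW hy
      rw [← hAB] at this
      rcases this with h1 | h1
      · have hya : y = a := by
          by_contra hne
          exact hyA (mem_insert_of_mem _ ⟨h1, hne⟩)
        subst hya
        rcases hc with rfl | hc
        · exact hcY ⟨e, heY, hfB e he⟩
        · by_cases hcy : c = y
          · exact hcY ⟨y, hy, by rw [hfA y h1, hcy]⟩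
          · exact hcY ⟨c, hAY (mem_insert_of_mem _ ⟨hc, hcy⟩), hfA c hc⟩
      · exact hye (hinj hy heY (by rw [hfB y h1, hfB e he]))
  -- an infinite circuit
  have hC : M.IsCircuit (insert b A) := by
    rw [Matroid.isCircuit_iff_dep_forall_sdiff_singleton_indep]
    refine ⟨⟨fun hi => ?_, insert_subset (hBW hb) hAW⟩, fun e he => ?_⟩
    · obtain ⟨⟨c, hc, hcY⟩, -, -⟩ := (hMi _).1 hi
      rw [himAb A Subset.rfl b hb] at hcY
      exact hcY hc
    · rcases he with rfl | he
      · refine hbaseA.indep.subset ?_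
        rintro x ⟨rfl | hx, hxb⟩
        · exact absurd rfl hxb
        · exact hx
      · refine (hMi _).2 ⟨⟨e, mem_insert_of_mem _ he, ?_⟩,
          (hinjAb A Subset.rfl b hb).mono sdiff_subset,
          sdiff_subset.trans (insert_subset (hBW hb) hAW)⟩
        rintro ⟨x, ⟨hx, hxe⟩, hxeq⟩
        rcases hx with rfl | hx
        · rw [hfB x hb] at hxeq
          exact hbA (hxeq ▸ he)
        · rw [hfA x hx] at hxeq
          exact hxe hxeq
  -- an infinite cocircuit
  have hK : M✶.IsCircuit (insert a B) := by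
    rw [Matroid.isCircuit_iff_dep_forall_sdiff_singleton_indep]
    have haBW : insert a B ⊆ W := insert_subset (hAW ha) hBW
    refine ⟨⟨fun hi => ?_, haBW⟩, fun e he => ?_⟩
    · rw [Matroid.dual_indep_iff_exists'] at hi
      obtain ⟨-, B', hB', hdj'⟩ := hi
      have hsub : B' ⊆ A := by
        intro x hx
        have := hB'.subset_ground hx
        change x ∈ W at this
        rw [← hAB] at this
        exact this.resolve_right fun hxB => hdj'.ne_of_mem (mem_insert_of_mem _ hxB) hx rfl
      have heq : B' = A := hB'.eq_of_subset_isBase hbaseA hsub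
      exact hdj'.ne_of_mem (mem_insert _ _) (heq ▸ ha) rfl
    · rw [Matroid.dual_indep_iff_exists']
      refine ⟨sdiff_subset.trans haBW, ?_⟩
      rcases he with rfl | he
      · refine ⟨A, hbaseA, ?_⟩
        rw [disjoint_left]
        rintro x ⟨rfl | hx, hxa⟩
        · exact absurd rfl hxa
        · exact fun hxA => hdj.ne_of_mem hxA hx rfl
      · refine ⟨insert e (A \ {a}), hbaseAe e he, ?_⟩
        rw [disjoint_left]
        rintro x ⟨hx, hxe⟩ hx'
        rcases hx' with rfl | hx'
        · exact hxe rfl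
        · rcases hx with rfl | hx
          · exact hx'.2 rfl
          · exact hdj.ne_of_mem hx'.1 hx rfl
  refine ⟨M, rfl, ?_⟩
  rintro ⟨P, h1, h2⟩
  have haP : a ∉ P := by
    intro haP
    have := (h1 _ hC ⟨a, mem_insert_of_mem _ ha, haP⟩).2
    exact hAinf (this.subset (subset_insert _ _))
  have := (h2 _ hK ⟨a, mem_insert _ _, haP⟩).2
  exact hBinf (this.subset (subset_insert _ _))

theorem IsBMatroid.isIndepSpace_of_finite {W : Set S} {I : Set (Set S)} (h : IsBMatroid W I)
    (hW : W.Finite) : IsIndepSpace W I := by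
  obtain ⟨M, rfl, rfl⟩ := h.exists_matroid
  exact
    { toIsPreIndepSpace := isPreIndepSpace_fam M
      finitary := fun Y hY hF => hF Y Subset.rfl (hW.subset hY) }

/-- For every infinite set `S` there is a least admissible system that contains all independence
spaces and is closed under direct sums; it agrees with the system of all B-matroids on `W ⊆ S` if
and only if `W` is finite.  In particular Q1 has a negative answer for every infinite `S`. -/
theorem result (S : Type u) [Infinite S] :
    ∃ D : Set S → Set (Set (Set S)),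
      IsAdmissible D ∧ ContainsIndepSpaces D ∧ ClosedUnderDirectSums D ∧
      (∀ D' : Set S → Set (Set (Set S)),
        IsAdmissible D' → ContainsIndepSpaces D' → ClosedUnderDirectSums D' →
          ∀ W, D W ⊆ D' W) ∧
      (∀ W, D W = {I | IsBMatroid W I} ↔ W.Finite) ∧
      ¬ (∀ W, D W = {I | IsBMatroid W I}) := by
  have key : ∀ W : Set S, sys W = {I | IsBMatroid W I} ↔ W.Finite := by
    intro W
    constructor
    · intro h
      by_contra hW
      obtain ⟨M, hME, hM⟩ := exists_not_good hW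
      have hmem : fam M ∈ {I | IsBMatroid W I} := by
        have := isBMatroid_fam M
        rwa [hME] at this
      rw [← h] at hmem
      obtain ⟨M', hM', hE', hfam⟩ := hmem
      have : M' = M := fam_injective (hE'.trans hME.symm) hfam
      exact hM (this ▸ hM')
    · intro hW
      refine Subset.antisymm (fun I hI => sys_isBMatroid hI) fun I hI => ?_
      exact sys_containsIndepSpaces W I (IsBMatroid.isIndepSpace_of_finite hI hW)
  refine ⟨sys, sys_isAdmissible, sys_containsIndepSpaces, sys_closedUnderDirectSums,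
    fun D' h1 h2 h3 W => sys_least h1 h2 h3 W, key, fun h => ?_⟩
  exact infinite_univ ((key univ).1 (h univ))

end Pool.Agent.Results.MP_cb2a9f_co.LeastSumClosedSystem
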